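import Pool.Agent.H998.HK.Spec3

/-!
# The regularised Yukawa kernel is an approximate identity (task KAP)
-/

set_option autoImplicit false

noncomputable section

namespace Pool.Agent.H707.HK

open MeasureTheory Filter Topology Set Pool.Agent.H998.HK
open scoped ENNReal NNReal RealInnerProductSpace ContDiff

namespace Kap

/-- `√(|x|² + ε²)` -/
def sq (ε : ℝ) (x : E3) : ℝ := √(‖x‖ ^ 2 + ε ^ 2)

theorem sq_pos {ε : ℝ} (hε : 0 < ε) (x : E3) : 0 < sq ε x := Real.sqrt_pos.2 (by positivity)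

theorem sq_sq {ε : ℝ} (x : E3) : sq ε x ^ 2 = ‖x‖ ^ 2 + ε ^ 2 :=
  Real.sq_sqrt (by positivity)

theorem sq_cont (ε : ℝ) : Continuous (sq ε) := by
  unfold sq
  fun_prop

theorem contDiff_arg (ε : ℝ) : ContDiff ℝ ((⊤ : ℕ∞) : WithTop ℕ∞)
    (fun x : E3 => ‖x‖ ^ 2 + ε ^ 2) := (contDiff_norm_sq ℝ).add contDiff_const

theorem contDiff_sq {ε : ℝ} (hε : 0 < ε) : ContDiff ℝ ((⊤ : ℕ∞) : WithTop ℕ∞) (sq ε) :=
  (contDiff_arg ε).sqrt fun x => by positivity

theorem yukE_eq (κ ε : ℝ) (x : E3) :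
    yukE κ ε x = Real.exp (-(κ * sq ε x)) / (4 * Real.pi * sq ε x) := rfl

theorem kap_eq (κ ε : ℝ) (x : E3) : kap κ ε x = ε ^ 2 / (4 * Real.pi) *
    (Real.exp (-(κ * sq ε x)) * (3 + 3 * (κ * sq ε x) + (κ * sq ε x) ^ 2)) / sq ε x ^ 5 := rfl

theorem contDiff_yukE (κ : ℝ) {ε : ℝ} (hε : 0 < ε) :
    ContDiff ℝ ((⊤ : ℕ∞) : WithTop ℕ∞) (yukE κ ε) := by
  have h : yukE κ ε = fun x => Real.exp (-(κ * sq ε x)) / (4 * Real.pi * sq ε x) := rfl
  rw [h]
  refine ContDiff.div (contDiff_const.mul (contDiff_sq hε)).neg.exp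
    (contDiff_const.mul (contDiff_sq hε)) fun x => ?_
  have := sq_pos hε x
  positivity

theorem kap_nonneg {κ ε : ℝ} (hκ : 0 < κ) (hε : 0 < ε) (x : E3) : 0 ≤ kap κ ε x := by
  rw [kap_eq]
  have := sq_pos hε x
  positivity

theorem kap_cont (κ : ℝ) {ε : ℝ} (hε : 0 < ε) : Continuous (kap κ ε) := by
  have h : kap κ ε = fun x => ε ^ 2 / (4 * Real.pi) *
    (Real.exp (-(κ * sq ε x)) * (3 + 3 * (κ * sq ε x) + (κ * sq ε x) ^ 2)) / sq ε x ^ 5 := rfl
  rw [h]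
  have h1 := sq_cont ε
  refine Continuous.div (by fun_prop) (by fun_prop) fun x => ?_
  have := sq_pos hε x
  positivity

/-! ### The integral of the majorant -/

/-- the majorant -/
def maj (ε : ℝ) (x : E3) : ℝ := 3 * ε ^ 2 / (4 * Real.pi) / sq ε x ^ 5

theorem exp_bound {t : ℝ} (ht : 0 ≤ t) : Real.exp (-t) * (3 + 3 * t + t ^ 2) ≤ 3 := by
  have h1 := Real.quadratic_le_exp_of_nonneg ht
  have h2 : 3 + 3 * t + t ^ 2 ≤ 3 * Real.exp t := by nlinarith [sq_nonneg t]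
  calc Real.exp (-t) * (3 + 3 * t + t ^ 2) ≤ Real.exp (-t) * (3 * Real.exp t) :=
        mul_le_mul_of_nonneg_left h2 (Real.exp_pos _).le
    _ = 3 * (Real.exp (-t) * Real.exp t) := by ring
    _ = 3 := by rw [← Real.exp_add]; simp

theorem kap_le {κ ε : ℝ} (hκ : 0 < κ) (hε : 0 < ε) (x : E3) : kap κ ε x ≤ maj ε x := by
  rw [kap_eq]
  have h1 := sq_pos hε x
  have h2 := exp_bound (t := κ * sq ε x) (by positivity)
  unfold maj
  have h3 : 3 * ε ^ 2 / (4 * Real.pi) = ε ^ 2 / (4 * Real.pi) * 3 := by ring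
  rw [h3]
  refine div_le_div_of_nonneg_right ?_ (by positivity)
  exact mul_le_mul_of_nonneg_left h2 (by positivity)

/-- the radial profile times `r²`, and its antiderivative -/
def rad (ε r : ℝ) : ℝ := 3 * ε ^ 2 / (4 * Real.pi) / √(r ^ 2 + ε ^ 2) ^ 5

def anti (ε r : ℝ) : ℝ := r ^ 3 / √(r ^ 2 + ε ^ 2) ^ 3 / (4 * Real.pi)

theorem anti_deriv {ε : ℝ} (hε : 0 < ε) (r : ℝ) :
    HasDerivAt (anti ε) (r ^ 2 * rad ε r) r := by
  have h0 : 0 < r ^ 2 + ε ^ 2 := by positivity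
  have hs : 0 < √(r ^ 2 + ε ^ 2) := Real.sqrt_pos.2 h0
  have h1 : HasDerivAt (fun r : ℝ => √(r ^ 2 + ε ^ 2)) (2 * r / (2 * √(r ^ 2 + ε ^ 2))) r := by
    have h := ((hasDerivAt_pow 2 r).add_const (ε ^ 2)).sqrt h0.ne'
    simpa using h
  have h2 : HasDerivAt (fun r : ℝ => √(r ^ 2 + ε ^ 2) ^ 3)
      (3 * √(r ^ 2 + ε ^ 2) ^ 2 * (2 * r / (2 * √(r ^ 2 + ε ^ 2)))) r := by
    have h := h1.pow 3
    exact h.congr_deriv (by norm_num)
  have h3 : HasDerivAt (fun r : ℝ => r ^ 3) (3 * r ^ 2) r := by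
    have h := hasDerivAt_pow 3 r
    simpa using h
  have h4 := (h3.div h2 (by positivity)).div_const (4 * Real.pi)
  refine h4.congr_deriv ?_
  unfold rad
  have h5 : √(r ^ 2 + ε ^ 2) ^ 2 = r ^ 2 + ε ^ 2 := Real.sq_sqrt h0.le
  set s := √(r ^ 2 + ε ^ 2) with hsdef
  have hπ := Real.pi_pos
  have h6 : ε ^ 2 = s ^ 2 - r ^ 2 := by linarith
  rw [h6]
  field_simp

theorem anti_tendsto {ε : ℝ} (hε : 0 < ε) :
    Tendsto (anti ε) atTop (𝓝 (1 / (4 * Real.pi))) := by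
  unfold anti
  refine Tendsto.div_const ?_ _
  have h1 : Tendsto (fun r : ℝ => (√(1 + ε ^ 2 * (r⁻¹) ^ 2) ^ 3)⁻¹) atTop (𝓝 1) := by
    have h2 : Tendsto (fun r : ℝ => √(1 + ε ^ 2 * (r⁻¹) ^ 2) ^ 3) atTop (𝓝 1) := by
      have h3 : Tendsto (fun r : ℝ => 1 + ε ^ 2 * (r⁻¹) ^ 2) atTop (𝓝 (1 + ε ^ 2 * 0 ^ 2)) :=
        ((tendsto_inv_atTop_zero.pow 2).const_mul _).const_add 1
      have h4 := (h3.sqrt).pow 3
      simpa using h4
    simpa using h2.inv₀ one_ne_zero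
  refine h1.congr' ?_
  filter_upwards [eventually_gt_atTop (0 : ℝ)] with r hr
  have h3 : √(r ^ 2 + ε ^ 2) = r * √(1 + ε ^ 2 * (r⁻¹) ^ 2) := by
    have : r ^ 2 + ε ^ 2 = r ^ 2 * (1 + ε ^ 2 * (r⁻¹) ^ 2) := by
      field_simp
    rw [this, Real.sqrt_mul (by positivity), Real.sqrt_sq hr.le]
  rw [h3, mul_pow]
  have h4 : 0 < √(1 + ε ^ 2 * (r⁻¹) ^ 2) := Real.sqrt_pos.2 (by positivity)
  field_simp

theorem rad_nonneg (ε r : ℝ) : 0 ≤ rad ε r := by
  unfold rad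
  positivity

theorem maj_integral {ε : ℝ} (hε : 0 < ε) : Integrable (maj ε) ∧ ∫ x, maj ε x = 1 := by
  have hm : maj ε = fun x => rad ε ‖x‖ := rfl
  have hd : Module.finrank ℝ E3 = 3 := finrank_euclideanSpace_fin
  have h1 : IntegrableOn (fun r => r ^ 2 * rad ε r) (Ioi (0 : ℝ)) :=
    integrableOn_Ioi_deriv_of_nonneg' (fun r _ => anti_deriv hε r)
      (fun r _ => mul_nonneg (sq_nonneg r) (rad_nonneg ε r)) (anti_tendsto hε)
  have h2 : ∫ r in Ioi (0 : ℝ), r ^ 2 * rad ε r = 1 / (4 * Real.pi) := by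
    rw [integral_Ioi_of_hasDerivAt_of_nonneg' (fun r _ => anti_deriv hε r)
      (fun r _ => mul_nonneg (sq_nonneg r) (rad_nonneg ε r)) (anti_tendsto hε)]
    simp [anti]
  constructor
  · rw [hm, integrable_fun_norm_addHaar volume (f := rad ε), hd]
    simpa using h1
  · rw [hm, integral_fun_norm_addHaar volume (rad ε), hd]
    simp only [smul_eq_mul]
    norm_num
    rw [h2]
    have h3 : (volume : Measure E3).real (Metric.ball 0 1) = Real.pi * 4 / 3 := by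
      rw [Measure.real, EuclideanSpace.volume_ball_fin_three]
      simp
      positivity
    rw [h3]
    field_simp

/-! ### The differential equation -/

theorem pd_comp {ε : ℝ} (hε : 0 < ε) {F : ℝ → ℝ} {F' : ℝ} (x : E3) (hF : HasDerivAt F F' (sq ε x)) :
    HasFDerivAt (fun y => F (sq ε y)) ((F' / sq ε x) • innerSL ℝ x) x := by
  have h1 : HasFDerivAt (fun y : E3 => ‖y‖ ^ 2 + ε ^ 2) (2 • innerSL ℝ x) x :=
    (hasStrictFDerivAt_norm_sq x).hasFDerivAt.add_const _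
  have h2 : HasFDerivAt (sq ε) ((1 / (2 * √(‖x‖ ^ 2 + ε ^ 2))) • (2 • innerSL ℝ x)) x :=
    h1.sqrt (by positivity)
  have h3 := hF.comp_hasFDerivAt x h2
  refine h3.congr_fderiv ?_
  have h4 : √(‖x‖ ^ 2 + ε ^ 2) = sq ε x := rfl
  rw [h4]
  have h5 := sq_pos hε x
  ext v
  simp only [smul_apply, smul_eq_mul, nsmul_eq_mul, Nat.cast_ofNat]
  field_simp

theorem inner_single (x : E3) (i : Fin 3) :
    innerSL ℝ x (EuclideanSpace.single i (1 : ℝ)) = x i := by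
  rw [innerSL_apply_apply, EuclideanSpace.inner_single_right]
  simp

/-- `e^{-κ s} / (4 π s)` -/
def F0 (κ s : ℝ) : ℝ := Real.exp (-(κ * s)) / (4 * Real.pi * s)

/-- `F0' / s` -/
def F1 (κ s : ℝ) : ℝ := -((κ * s + 1) * Real.exp (-(κ * s)) / (4 * Real.pi * s ^ 3))

/-- `F1'` -/
def F2 (κ s : ℝ) : ℝ :=
  Real.exp (-(κ * s)) * (3 + 3 * (κ * s) + (κ * s) ^ 2) / (4 * Real.pi * s ^ 4)

theorem exp_deriv (κ s : ℝ) : HasDerivAt (fun s : ℝ => Real.exp (-(κ * s)))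
    (-κ * Real.exp (-(κ * s))) s := by
  have h := (((hasDerivAt_id s).const_mul κ).neg).exp
  refine h.congr_deriv ?_
  simp
  ring

theorem F0_deriv (κ : ℝ) {s : ℝ} (hs : 0 < s) : HasDerivAt (F0 κ) (s * F1 κ s) s := by
  have h2 : HasDerivAt (fun s : ℝ => 4 * Real.pi * s) (4 * Real.pi) s := by
    simpa using (hasDerivAt_id s).const_mul (4 * Real.pi)
  have h3 := (exp_deriv κ s).div h2 (by positivity)
  refine h3.congr_deriv ?_
  unfold F1
  field_simp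
  ring

theorem F1_deriv (κ : ℝ) {s : ℝ} (hs : 0 < s) : HasDerivAt (F1 κ) (F2 κ s) s := by
  have h1 : HasDerivAt (fun s : ℝ => κ * s + 1) κ s := by
    simpa using ((hasDerivAt_id s).const_mul κ).add_const 1
  have h2 : HasDerivAt (fun s : ℝ => 4 * Real.pi * s ^ 3) (4 * Real.pi * (3 * s ^ 2)) s := by
    simpa using (hasDerivAt_pow 3 s).const_mul (4 * Real.pi)
  have h3 := ((h1.mul (exp_deriv κ s)).div h2 (by positivity)).neg
  refine h3.congr_deriv ?_
  unfold F2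
  simp only [Pi.mul_apply]
  field_simp
  ring

theorem pd_yukE (κ : ℝ) {ε : ℝ} (hε : 0 < ε) (i : Fin 3) :
    pd i (yukE κ ε) = fun x => x i * F1 κ (sq ε x) := by
  funext x
  unfold pd
  have h1 := pd_comp hε x (F0_deriv κ (sq_pos hε x))
  have h2 : yukE κ ε = fun y => F0 κ (sq ε y) := rfl
  rw [h2, h1.fderiv, smul_apply, inner_single, smul_eq_mul]
  have h3 := sq_pos hε x
  field_simp

theorem pd_pd_yukE (κ : ℝ) {ε : ℝ} (hε : 0 < ε) (i : Fin 3) (x : E3) :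
    pd i (pd i (yukE κ ε)) x = F1 κ (sq ε x) + x i ^ 2 * (F2 κ (sq ε x) / sq ε x) := by
  rw [pd_yukE κ hε i]
  unfold pd
  have h1 := pd_comp hε x (F1_deriv κ (sq_pos hε x))
  have h2 : HasFDerivAt (fun y : E3 => y i) (EuclideanSpace.proj i : E3 →L[ℝ] ℝ) x :=
    (EuclideanSpace.proj i : E3 →L[ℝ] ℝ).hasFDerivAt
  have h3 : HasFDerivAt (fun y : E3 => y i * F1 κ (sq ε y)) _ x := h2.mul h1
  rw [h3.fderiv]
  simp only [add_apply, smul_apply, inner_single, smul_eq_mul]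
  simp
  ring

theorem helm (κ : ℝ) {ε : ℝ} (hε : 0 < ε) (x : E3) :
    κ ^ 2 * yukE κ ε x - ∑ i, pd i (pd i (yukE κ ε)) x = kap κ ε x := by
  simp only [pd_pd_yukE κ hε]
  rw [Finset.sum_add_distrib, ← Finset.sum_mul]
  have h1 : ∑ i : Fin 3, x i ^ 2 = sq ε x ^ 2 - ε ^ 2 := by
    rw [sq_sq, EuclideanSpace.real_norm_sq_eq]
    ring
  rw [h1, yukE_eq, kap_eq]
  have hs := sq_pos hε x
  simp only [Finset.sum_const, Finset.card_univ, Fintype.card_fin, nsmul_eq_mul]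
  unfold F1 F2
  field_simp
  push_cast
  ring

/-! ### The limit -/

/-- `e^{-t} (3 + 3 t + t²)` -/
def kk (t : ℝ) : ℝ := Real.exp (-t) * (3 + 3 * t + t ^ 2)

theorem kk_cont : Continuous kk := by
  unfold kk
  fun_prop

theorem sq_smul {ε : ℝ} (hε : 0 < ε) (z : E3) : sq ε (ε • z) = ε * sq 1 z := by
  unfold sq
  rw [norm_smul, Real.norm_of_nonneg hε.le]
  have : (ε * ‖z‖) ^ 2 + ε ^ 2 = ε ^ 2 * (‖z‖ ^ 2 + 1 ^ 2) := by ring
  rw [this, Real.sqrt_mul (by positivity), Real.sqrt_sq hε.le]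

theorem kap_smul {κ ε : ℝ} (hε : 0 < ε) (z : E3) :
    ε ^ 3 * kap κ ε (ε • z) = kk (κ * (ε * sq 1 z)) / (4 * Real.pi) / sq 1 z ^ 5 := by
  rw [kap_eq, sq_smul hε]
  have h1 := sq_pos one_pos z
  unfold kk
  field_simp

theorem subst {κ ε : ℝ} (hε : 0 < ε) (ψ : E3 → ℝ) (y : E3) :
    ∫ x, kap κ ε (x - y) * ψ x =
      ∫ z, kk (κ * (ε * sq 1 z)) / (4 * Real.pi) / sq 1 z ^ 5 * ψ (y + ε • z) := by
  have h1 : ∫ x, kap κ ε (x - y) * ψ x = ∫ x, kap κ ε x * ψ (y + x) := by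
    rw [← integral_add_left_eq_self (fun x => kap κ ε (x - y) * ψ x) y]
    refine integral_congr_ae (Eventually.of_forall fun x => ?_)
    simp
  have h2 := Measure.integral_comp_smul (volume : Measure E3) (fun x => kap κ ε x * ψ (y + x)) ε
  rw [finrank_euclideanSpace_fin, abs_of_pos (by positivity), smul_eq_mul] at h2
  have h3 : ∫ x, kap κ ε x * ψ (y + x) = ε ^ 3 * ∫ x, kap κ ε (ε • x) * ψ (y + ε • x) := by
    rw [h2]
    field_simp
  rw [h1, h3, ← integral_const_mul]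
  refine integral_congr_ae (Eventually.of_forall fun z => ?_)
  simp only
  rw [← kap_smul hε z]
  ring

theorem lim {κ : ℝ} (hκ : 0 < κ) (ψ : E3 → ℝ) (hψ : Continuous ψ) (hc : HasCompactSupport ψ)
    (y : E3) : Tendsto (fun ε : ℝ => ∫ x, kap κ ε (x - y) * ψ x) (𝓝[>] 0) (𝓝 (ψ y)) := by
  obtain ⟨B, hB⟩ := hc.exists_bound_of_continuous hψ
  have hmaj := maj_integral one_pos
  have h0 : ∫ z, maj 1 z * ψ y = ψ y := by
    rw [integral_mul_const, hmaj.2, one_mul]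
  have hev : ∀ᶠ ε : ℝ in 𝓝[>] 0, 0 < ε := eventually_mem_nhdsWithin
  have key : Tendsto (fun ε : ℝ =>
      ∫ z, kk (κ * (ε * sq 1 z)) / (4 * Real.pi) / sq 1 z ^ 5 * ψ (y + ε • z)) (𝓝[>] 0)
      (𝓝 (∫ z, maj 1 z * ψ y)) := by
    refine tendsto_integral_filter_of_dominated_convergence (fun z => maj 1 z * B) ?_ ?_ ?_ ?_
    · filter_upwards [hev] with ε hε
      refine Continuous.aestronglyMeasurable ?_
      have h1 := sq_cont 1
      have h2 := kk_cont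
      refine Continuous.mul ?_ (by fun_prop)
      refine Continuous.div (by fun_prop) (by fun_prop) fun x => ?_
      have := sq_pos one_pos x
      positivity
    · filter_upwards [hev] with ε hε
      refine Eventually.of_forall fun z => ?_
      have hs := sq_pos one_pos z
      rw [norm_mul]
      have h1 : 0 ≤ kk (κ * (ε * sq 1 z)) := by
        unfold kk
        positivity
      have h2 : kk (κ * (ε * sq 1 z)) ≤ 3 := exp_bound (by positivity)
      have h3 : ‖kk (κ * (ε * sq 1 z)) / (4 * Real.pi) / sq 1 z ^ 5‖ ≤ maj 1 z := by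
        rw [Real.norm_of_nonneg (by positivity)]
        unfold maj
        have h4 : (3 : ℝ) * 1 ^ 2 = 3 := by norm_num
        rw [h4]
        gcongr
      exact mul_le_mul h3 (hB _) (norm_nonneg _) ((norm_nonneg _).trans h3)
    · exact hmaj.1.mul_const B
    · refine Eventually.of_forall fun z => ?_
      have ht : Tendsto (fun ε : ℝ => ε) (𝓝[>] 0) (𝓝 0) := tendsto_nhdsWithin_of_tendsto_nhds
        tendsto_id
      have h1 : Tendsto (fun ε : ℝ => kk (κ * (ε * sq 1 z))) (𝓝[>] 0) (𝓝 3) := by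
        have h2 : Tendsto (fun ε : ℝ => κ * (ε * sq 1 z)) (𝓝[>] 0) (𝓝 0) := by
          have := (ht.mul_const (sq 1 z)).const_mul κ
          simpa using this
        have h3 := (kk_cont.tendsto 0).comp h2
        have h4 : kk 0 = 3 := by simp [kk]
        rw [h4] at h3
        exact h3
      have h2 : Tendsto (fun ε : ℝ => ψ (y + ε • z)) (𝓝[>] 0) (𝓝 (ψ y)) := by
        have h3 : Tendsto (fun ε : ℝ => y + ε • z) (𝓝[>] 0) (𝓝 y) := by
          have := (ht.smul_const z).const_add y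
          simpa using this
        exact (hψ.tendsto y).comp h3
      have h3 := ((h1.div_const (4 * Real.pi)).div_const (sq 1 z ^ 5)).mul h2
      have h4 : maj 1 z = 3 / (4 * Real.pi) / sq 1 z ^ 5 := by
        unfold maj
        norm_num
      rw [h4]
      exact h3
  rw [h0] at key
  refine key.congr' ?_
  filter_upwards [hev] with ε hε
  exact (subst hε ψ y).symm

end Kap

/-- Task KAP. -/
theorem t_KAP : S_KAP := by
  intro κ hκ
  refine ⟨fun ε hε => ⟨Kap.contDiff_yukE κ hε, fun x => Kap.kap_nonneg hκ hε x, ?_, ?_,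
    fun x => Kap.helm κ hε x⟩, fun ψ hψ hc y => Kap.lim hκ ψ hψ hc y⟩
  · refine (Kap.maj_integral hε).1.mono' (Kap.kap_cont κ hε).aestronglyMeasurable
      (Eventually.of_forall fun x => ?_)
    rw [Real.norm_of_nonneg (Kap.kap_nonneg hκ hε x)]
    exact Kap.kap_le hκ hε x
  · rw [← (Kap.maj_integral hε).2]
    exact integral_mono_of_nonneg (Eventually.of_forall fun x => Kap.kap_nonneg hκ hε x)
      (Kap.maj_integral hε).1 (Eventually.of_forall fun x => Kap.kap_le hκ hε x)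

end Pool.Agent.H707.HK
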